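import Pool.Agent.Y45.TG.Stm

/-!
The law in metabelian groups.
-/

set_option autoImplicit false

namespace Pool.Agent.Y50.TG

open Pool.Agent.Y45.TG

/-- the values of a word which is trivial on commuting pairs are in the commutator subgroup -/
theorem mem_comm {c : FreeGroup (Fin 2)} (hc : Cv c) (G : Type) [Group G] (x y : G) :
    FreeGroup.lift ![x, y] c ∈ commutator G := by
  have h1 := lift2_map (Abelianization.of : G →* Abelianization G) x y c
  rw [hc (Abelianization G) _ _ (mul_comm _ _)] at h1
  have h2 : FreeGroup.lift ![x, y] c ∈ (Abelianization.of : G →* Abelianization G).ker := h1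
  rwa [Abelianization.ker_of] at h2

theorem t_met : MetStmt := by
  intro p pw c d hF hc hd G _ hm x y
  unfold W3
  rw [hF.com G _ _ _ (hm _ (mem_comm hc G _ _) _ (mem_comm hd G _ _)),
    hF.com G _ _ _ (hm _ (mem_comm hc G _ _) _ (mem_comm hd G _ _)),
    hF.com G _ _ _ (hm _ (mem_comm hc G _ _) _ (mem_comm hd G _ _))]

end Pool.Agent.Y50.TG
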